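import Pool.Agent.helper36.BP.SpecE

/-!
# bp:CHB: cancellation at large height, row by row
-/

set_option autoImplicit false

open Finset
open Pool.Agent.FI Pool.Agent.HK
open Pool.Agent.CH (nit rgh ll2)
open Pool.Agent.SK (tr0 Th)

noncomputable section

namespace Pool.Agent.BP

theorem CHB_s8 : (2.82 : ℝ) < √8 ∧ √8 < 2.83 := by
  constructor
  · rw [Real.lt_sqrt (by norm_num)]; norm_num
  · rw [Real.sqrt_lt' (by norm_num)]; norm_num

theorem CHB_norm_nit (t x : ℝ) : ‖nit t x‖ = 1 := by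
  unfold CH.nit
  rw [Complex.norm_exp_ofReal_mul_I]

theorem CHB_nit_mul (t x y : ℝ) (hx : 0 < x) (hy : 0 < y) : nit t (x * y) = nit t x * nit t y := by
  unfold CH.nit
  rw [← Complex.exp_add, Real.log_mul hx.ne' hy.ne']
  congr 1
  push_cast
  ring

theorem CHB_nn (z : ℤ × ℤ) : ((nn z : ℕ) : ℝ) = |(z.1 : ℝ) + z.2 * √8| * |(z.1 : ℝ) - z.2 * √8| := by
  have h8 : √8 * √8 = (8 : ℝ) := Real.mul_self_sqrt (by norm_num)
  rw [← abs_mul]
  unfold nn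
  rw [Nat.cast_natAbs, Int.cast_abs]
  have e : ((N8 z : ℤ) : ℝ) = ((z.1 : ℝ) + z.2 * √8) * ((z.1 : ℝ) - z.2 * √8) := by
    unfold N8
    push_cast
    linear_combination (z.2 : ℝ) ^ 2 * h8
  rw [e]

theorem CHB_fac (κ τ : ℝ) (z : ℤ × ℤ) (h1 : (z.1 : ℝ) + z.2 * √8 ≠ 0) (h2 : (z.1 : ℝ) - z.2 * √8 ≠ 0) :
    Complex.exp (κ * yy z * Complex.I) * nit τ (nn z) =
      nit (κ + τ) |(z.1 : ℝ) + z.2 * √8| * nit (τ - κ) |(z.1 : ℝ) - z.2 * √8| := by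
  have h1' := abs_ne_zero.2 h1
  have h2' := abs_ne_zero.2 h2
  rw [CHB_nn]
  unfold CH.nit yy
  rw [Real.log_mul h1' h2', Real.log_div h1' h2', ← Complex.exp_add, ← Complex.exp_add]
  congr 1
  push_cast
  ring

open scoped Classical in
/-- the body of RWB -/
def CHB_RW (C : ℕ) : Prop := ∀ (l N D : ℕ) (α β w ρ : ℝ) (χ : ℤ → ℂ) (J : Finset ℤ), 1 ≤ l → 1 ≤ N → 1 ≤ D → 0 < ρ → ρ ≤ 1 / 2 →
  √(N : ℝ) ≤ max |α| |β| → max |α| |β| ≤ (N : ℝ) ^ l → (∀ m, χ (m + D) = χ m) → (∀ m, ‖χ m‖ ≤ 1) →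
  (∀ a ∈ J, ∀ b ∈ J, ∀ m, a ≤ m → m ≤ b → m ∈ J) →
  (∀ m ∈ J, |(m : ℝ)| < w ∧ (D : ℝ) * N ≤ w - |(m : ℝ)| ∧ w + |(m : ℝ)| ≤ 50 * (D * N)) →
  ‖∑ m ∈ J, χ m * (nit α |m + w| * nit β |m - w|)‖ ≤
    #{m ∈ J | ∃ j ∈ Icc 1 (5 * l), |Real.log ((w + m) / (w - m)) - Real.log (|α| / |β|) / j| ≤ 2 * ρ} +
    (D : ℝ) * N * (Real.exp (C * (l : ℝ) ^ 3) * (N : ℝ) ^ (-(1 / (C * (l : ℝ) ^ 6))) / ρ)

/-- the summation over one class, row by row -/
theorem CHB_cls (C : ℕ) (hR : CHB_RW C)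
    (v d l : ℕ) (α β ρ η n₀ : ℝ) (hl : 1 ≤ l) (hd : 1 ≤ d) (hρ : 0 < ρ) (hρ2 : ρ ≤ 1 / 2) (hη : 0 ≤ η) (hn0 : 0 ≤ n₀)
    (hN : ∀ n : ℕ, n₀ < n → (n : ℝ) ^ 2 ≤ 2 * v → ∃ N : ℕ, 1 ≤ N ∧ √(N : ℝ) ≤ max |α| |β| ∧ max |α| |β| ≤ (N : ℝ) ^ l ∧
      10 * (((2 * d : ℕ) : ℝ) * N) ≤ n ∧ 49 * (n : ℝ) ≤ 500 * (((2 * d : ℕ) : ℝ) * N) ∧
      ((2 * d : ℕ) : ℝ) * N * (Real.exp (C * (l : ℝ) ^ 3) * (N : ℝ) ^ (-(1 / (C * (l : ℝ) ^ 6))) / ρ) ≤ n * η)
    (S : Finset (ℤ × ℤ)) (g : ℤ × ℤ → ℂ) (out inn : ℤ × ℤ → ℤ) (e : ℤ → ℤ → ℤ × ℤ)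
    (he : ∀ z, e (out z) (inn z) = z) (he1 : ∀ n m, out (e n m) = n) (he2 : ∀ n m, inn (e n m) = m)
    (hg : ∀ z ∈ S, ‖g z‖ ≤ 1)
    (hout : ∀ z ∈ S, 1 ≤ out z ∧ out z ^ 2 ≤ 2 * v)
    (hconv : ∀ n a b m, e n a ∈ S → e n b ∈ S → a ≤ m → m ≤ b → e n m ∈ S)
    (hrow : ∀ n : ℕ, 1 ≤ n → ∃ (χ : ℤ → ℂ) (w : ℝ), (∀ m, χ (m + (2 * d : ℕ)) = χ m) ∧ (∀ m, ‖χ m‖ ≤ 1) ∧
      ∀ m, e n m ∈ S → g (e n m) = χ m * (nit α |m + w| * nit β |m - w|) ∧ |(m : ℝ)| < w ∧ (n : ℝ) ≤ 10 * (w - |(m : ℝ)|) ∧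
        10 * (w + |(m : ℝ)|) ≤ 49 * n ∧ yy (e n m) = Real.log ((w + m) / (w - m)))
    (bad : Finset (ℤ × ℤ)) (hbad : ∀ z ∈ S, ∀ j ∈ Icc 1 (5 * l), |yy z - Real.log (|α| / |β|) / j| ≤ 2 * ρ → z ∈ bad) :
    ‖∑ z ∈ S, g z‖ ≤ 7 * n₀ ^ 2 + 2 * v * η + bad.card := by
  classical
  obtain ⟨M, hM⟩ : ∃ M : ℕ, M = Nat.sqrt (2 * v) := ⟨_, rfl⟩
  have hMv : (M : ℝ) ^ 2 ≤ 2 * v := by
    have h1 : M ^ 2 ≤ 2 * v := by
      rw [hM, pow_two]
      exact Nat.sqrt_le (2 * v)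
    exact_mod_cast h1
  have hmap : ∀ z ∈ S, (out z).toNat ∈ Icc 1 M := by
    intro z hz
    obtain ⟨h1, h2⟩ := hout z hz
    rw [mem_Icc]
    refine ⟨by omega, ?_⟩
    rw [hM, Nat.le_sqrt']
    zify
    rw [Int.toNat_of_nonneg (by omega)]
    exact h2
  rw [← Finset.sum_fiberwise_of_maps_to hmap]
  refine le_trans (norm_sum_le _ _) ?_
  have hrowb : ∀ n ∈ Icc 1 M, ‖∑ z ∈ S with (out z).toNat = n, g z‖ ≤
      (if (n : ℝ) ≤ n₀ then 7 * n₀ else 0) + M * η + #{z ∈ bad | (out z).toNat = n} := by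
    intro n hn
    rw [mem_Icc] at hn
    obtain ⟨hn1, hnM⟩ := hn
    obtain ⟨χ, w, hχ1, hχ2, hχ⟩ := hrow n hn1
    obtain ⟨J, hJ⟩ : ∃ J : Finset ℤ, J = ({z ∈ S | (out z).toNat = n} : Finset (ℤ × ℤ)).image inn := ⟨_, rfl⟩
    have hfib : ∀ z ∈ ({z ∈ S | (out z).toNat = n} : Finset (ℤ × ℤ)), z ∈ S ∧ out z = n ∧ e n (inn z) = z := by
      intro z hz
      rw [mem_filter] at hz
      have h1 := (hout z hz.1).1
      have h2 : out z = n := by omega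
      refine ⟨hz.1, h2, ?_⟩
      rw [← h2]
      exact he z
    have hmem : ∀ m, m ∈ J ↔ e n m ∈ S := by
      intro m
      rw [hJ, mem_image]
      constructor
      · rintro ⟨z, hz, rfl⟩
        obtain ⟨h1, h2, h3⟩ := hfib z hz
        rw [h3]
        exact h1
      · intro h
        refine ⟨e n m, mem_filter.2 ⟨h, ?_⟩, he2 _ _⟩
        rw [he1]
        exact Int.toNat_natCast n
    have hsum : ∑ z ∈ S with (out z).toNat = n, g z = ∑ m ∈ J, g (e n m) := by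
      rw [hJ, sum_image]
      · refine sum_congr rfl fun z hz => ?_
        rw [(hfib z hz).2.2]
      · intro z hz z' hz' h
        have h1 := (hfib z hz).2.2
        have h2 := (hfib z' hz').2.2
        rw [← h1, ← h2]
        exact congrArg (e n) h
    have hn0' : (1 : ℝ) ≤ n := by exact_mod_cast hn1
    rw [hsum]
    have hbad0 : (0 : ℝ) ≤ #{z ∈ bad | (out z).toNat = n} := Nat.cast_nonneg _
    have hM0 : (0 : ℝ) ≤ M * η := by positivity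
    by_cases hc : (n : ℝ) ≤ n₀
    · rw [if_pos hc]
      have h1 : ‖∑ m ∈ J, g (e n m)‖ ≤ #J := by
        refine le_trans (norm_sum_le _ _) ?_
        refine le_trans (sum_le_sum (g := fun _ => (1 : ℝ)) fun m hm => hg _ ((hmem m).1 hm)) ?_
        rw [sum_const, nsmul_eq_mul, mul_one]
      have h2 : J ⊆ Icc (-(3 * n : ℤ)) (3 * n) := by
        intro m hm
        obtain ⟨-, h3, h4, h5, -⟩ := hχ m ((hmem m).1 hm)
        have h6 : |(m : ℝ)| ≤ 3 * n := by linarith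
        have h7 : |m| ≤ 3 * (n : ℤ) := by exact_mod_cast h6
        rw [abs_le] at h7
        exact mem_Icc.2 h7
      have h3 : #J ≤ 7 * n := by
        have h4 := card_le_card h2
        rw [Int.card_Icc] at h4
        omega
      have h4 : (#J : ℝ) ≤ 7 * n := by exact_mod_cast h3
      linarith
    · rw [if_neg hc, zero_add]
      push Not at hc
      have hnM' : (n : ℝ) ≤ M := by exact_mod_cast hnM
      have hn2 : (n : ℝ) ^ 2 ≤ 2 * v := le_trans (by gcongr) hMv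
      obtain ⟨N, hN1, hN2, hN3, hN4, hN5, hN6⟩ := hN n hc hn2
      have h := hR l N (2 * d) α β w ρ χ J hl hN1 (by omega) hρ hρ2 hN2 hN3 hχ1 hχ2
        (fun a ha b hb m h1 h2 => (hmem m).2 (hconv n a b m ((hmem a).1 ha) ((hmem b).1 hb) h1 h2))
        (fun m hm => by
          obtain ⟨-, h3, h4, h5, -⟩ := hχ m ((hmem m).1 hm)
          refine ⟨h3, ?_, ?_⟩
          · linarith
          · linarith)
      have hs : ∑ m ∈ J, g (e n m) = ∑ m ∈ J, χ m * (nit α |m + w| * nit β |m - w|) :=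
        sum_congr rfl fun m hm => (hχ m ((hmem m).1 hm)).1
      rw [hs]
      have hb : ∀ T : Finset ℝ, (∀ x ∈ T, ∃ m ∈ J, (m : ℝ) = x ∧
          ∃ j ∈ Icc 1 (5 * l), |Real.log ((w + x) / (w - x)) - Real.log (|α| / |β|) / j| ≤ 2 * ρ) →
          (#T : ℝ) ≤ #{z ∈ bad | (out z).toNat = n} := by
        intro T hT
        have h1 : T ⊆ ({z ∈ bad | (out z).toNat = n} : Finset (ℤ × ℤ)).image fun z => ((inn z : ℤ) : ℝ) := by
          intro x hx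
          obtain ⟨m, hm1, hm2, j, hj, hj2⟩ := hT x hx
          have hS := (hmem m).1 hm1
          rw [mem_image]
          refine ⟨e n m, ?_, ?_⟩
          · rw [mem_filter]
            refine ⟨hbad _ hS j hj ?_, ?_⟩
            · rw [(hχ m hS).2.2.2.2, hm2]
              exact hj2
            · rw [he1]
              exact Int.toNat_natCast n
          · rw [he2]
            exact hm2
        have h2 : #T ≤ #{z ∈ bad | (out z).toNat = n} := (card_le_card h1).trans card_image_le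
        exact_mod_cast h2
      have h6 : (n : ℝ) * η ≤ M * η := mul_le_mul_of_nonneg_right hnM' hη
      refine le_trans h (le_trans (add_le_add (hb _ fun x hx => ?_) le_rfl) ?_)
      · simp only [mem_filter] at hx
        obtain ⟨h1, h2⟩ := hx
        have h3 : ∃ m ∈ J, (m : ℝ) = x := by
          simpa [eq_comm] using h1
        obtain ⟨m, hm, hmx⟩ := h3
        exact ⟨m, hm, hmx, h2⟩
      · linarith
  refine le_trans (sum_le_sum hrowb) ?_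
  rw [sum_add_distrib, sum_add_distrib]
  have h1 : ∑ n ∈ Icc 1 M, (if (n : ℝ) ≤ n₀ then 7 * n₀ else 0) ≤ 7 * n₀ ^ 2 := by
    rw [← sum_filter, sum_const, nsmul_eq_mul]
    have h2 : ((Icc 1 M).filter fun n : ℕ => (n : ℝ) ≤ n₀) ⊆ Icc 1 ⌊n₀⌋₊ := by
      intro n hn
      rw [mem_filter, mem_Icc] at hn
      rw [mem_Icc]
      exact ⟨hn.1.1, Nat.le_floor hn.2⟩
    have h3 : (((Icc 1 M).filter fun n : ℕ => (n : ℝ) ≤ n₀).card : ℝ) ≤ n₀ := by
      have h4 := card_le_card h2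
      rw [Nat.card_Icc, Nat.add_sub_cancel] at h4
      have h5 : (((Icc 1 M).filter fun n : ℕ => (n : ℝ) ≤ n₀).card : ℝ) ≤ (⌊n₀⌋₊ : ℝ) := by exact_mod_cast h4
      exact h5.trans (Nat.floor_le hn0)
    nlinarith
  have h2 : ∑ _n ∈ Icc 1 M, (M : ℝ) * η ≤ 2 * v * η := by
    rw [sum_const, nsmul_eq_mul, Nat.card_Icc, Nat.add_sub_cancel, ← mul_assoc, ← pow_two]
    exact mul_le_mul_of_nonneg_right hMv hη
  have h3 : ∑ n ∈ Icc 1 M, (#{z ∈ bad | (out z).toNat = n} : ℝ) ≤ bad.card := by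
    have h4 : ∑ n ∈ Icc 1 M, #{z ∈ bad | (out z).toNat = n} ≤ bad.card := by
      rw [← card_biUnion]
      · refine card_le_card fun z hz => ?_
        rw [mem_biUnion] at hz
        obtain ⟨n, _, hn⟩ := hz
        exact (mem_filter.1 hn).1
      · intro a _ b _ hab
        rw [Function.onFun, disjoint_left]
        intro z hz hz'
        exact hab ((mem_filter.1 hz).2.symm.trans (mem_filter.1 hz').2)
    exact_mod_cast h4
  linarith

/-- the summand -/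
def CHB_g (ψ : ℤ × ℤ → ℂ) (j i : ℕ) (κ τ : ℝ) (z : ℤ × ℤ) : ℂ := if z.1 % 2 = 1 then HC ψ j i κ z * nit τ (nn z) else 0

theorem CHB_psi (d : ℕ) (ψ : ℤ × ℤ → ℂ) (hψ : IsRC d ψ) (z : ℤ × ℤ) : ‖ψ z‖ ≤ 1 := by
  by_cases h : Nat.Coprime (nn z) d
  · exact (hψ.2.2.2.1 z h).le
  · rw [hψ.2.2.1 z h, norm_zero]
    exact zero_le_one

theorem CHB_g_norm (d : ℕ) (ψ : ℤ × ℤ → ℂ) (hψ : IsRC d ψ) (j i : ℕ) (κ τ : ℝ) (z : ℤ × ℤ) : ‖CHB_g ψ j i κ τ z‖ ≤ 1 := by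
  unfold CHB_g
  split_ifs
  · unfold HC
    rw [norm_mul, norm_mul, norm_mul, norm_mul, CHB_norm_nit, norm_pow, norm_neg, norm_one, one_pow, mul_one, mul_one]
    have e1 : (κ : ℂ) * (yy z : ℂ) * Complex.I = ((κ * yy z : ℝ) : ℂ) * Complex.I := by push_cast; ring
    rw [e1, Complex.norm_exp_ofReal_mul_I, mul_one, norm_pow]
    have h1 := CHB_psi d ψ hψ z
    have h2 : ‖((N8 z).sign : ℂ)‖ ≤ 1 := by
      rcases lt_trichotomy (N8 z) 0 with h | h | h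
      · rw [Int.sign_eq_neg_one_of_neg h]; simp
      · rw [h]; simp
      · rw [Int.sign_eq_one_of_pos h]; simp
    have h3 : ‖((N8 z).sign : ℂ)‖ ^ i ≤ 1 := pow_le_one₀ (norm_nonneg _) h2
    calc ‖ψ z‖ * ‖((N8 z).sign : ℂ)‖ ^ i ≤ 1 * 1 := by
          gcongr
      _ = 1 := one_mul 1
  · rw [norm_zero]
    exact zero_le_one

theorem CHB_nn2 (z : ℤ × ℤ) (h : |z.1| < 2 * z.2) : ((nn z : ℕ) : ℤ) = 8 * z.2 ^ 2 - z.1 ^ 2 ∧ N8 z < 0 ∧ 4 * z.2 ^ 2 ≤ 8 * z.2 ^ 2 - z.1 ^ 2 := by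
  rw [abs_lt] at h
  have h1 : z.1 ^ 2 ≤ (2 * z.2) ^ 2 := by nlinarith
  have h2 : 0 < z.2 := by omega
  have h3 : N8 z < 0 := by
    unfold N8
    nlinarith
  refine ⟨?_, h3, by nlinarith⟩
  unfold nn
  rw [Int.natCast_natAbs, abs_of_neg h3]
  unfold N8
  ring

theorem CHB_nn1 (z : ℤ × ℤ) (h : 4 * |z.2| < z.1) : ((nn z : ℕ) : ℤ) = z.1 ^ 2 - 8 * z.2 ^ 2 ∧ 0 < N8 z ∧ z.1 ^ 2 ≤ 2 * (z.1 ^ 2 - 8 * z.2 ^ 2) := by
  have h0 : 0 ≤ |z.2| := abs_nonneg _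
  have h1 : 16 * z.2 ^ 2 ≤ z.1 ^ 2 := by
    rw [← sq_abs z.2]
    nlinarith
  have h3 : 0 < N8 z := by
    unfold N8
    nlinarith
  refine ⟨?_, h3, by nlinarith⟩
  unfold nn
  rw [Int.natCast_natAbs, abs_of_pos h3]
  rfl

theorem CHB_mem2 (v : ℕ) (z : ℤ × ℤ) (h : |z.1| < 2 * z.2) : z ∈ FE v ↔ 8 * z.2 ^ 2 - z.1 ^ 2 ≤ (v : ℤ) := by
  obtain ⟨h1, h2, h3⟩ := CHB_nn2 z h
  unfold FE
  rw [mem_filter]
  constructor
  · rintro ⟨-, -, h4⟩
    rw [← h1]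
    exact_mod_cast h4
  · intro h4
    refine ⟨?_, Or.inr h, ?_⟩
    · have h5 : 4 * z.2 ^ 2 ≤ (v : ℤ) := h3.trans h4
      have h6 : 0 < z.2 := by
        have := abs_nonneg z.1
        omega
      have h7 : z.2 ≤ z.2 ^ 2 := by nlinarith
      rw [abs_lt] at h
      unfold Bx
      rw [mem_product, mem_Icc, mem_Icc]
      push_cast
      refine ⟨⟨by omega, by omega⟩, by omega, by omega⟩
    · rw [← Nat.cast_le (α := ℤ), h1]
      exact h4

theorem CHB_mem1 (v : ℕ) (z : ℤ × ℤ) (h : 4 * |z.2| < z.1) : z ∈ FE v ↔ z.1 ^ 2 - 8 * z.2 ^ 2 ≤ (v : ℤ) := by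
  obtain ⟨h1, h2, h3⟩ := CHB_nn1 z h
  unfold FE
  rw [mem_filter]
  constructor
  · rintro ⟨-, -, h4⟩
    rw [← h1]
    exact_mod_cast h4
  · intro h4
    refine ⟨?_, Or.inl h, ?_⟩
    · have h5 : z.1 ^ 2 ≤ 2 * (v : ℤ) := by omega
      have h8 := abs_nonneg z.2
      have h6 : 0 < z.1 := by omega
      have h7 : z.1 ≤ z.1 ^ 2 := by nlinarith
      have h9 : |z.2| < z.1 := by omega
      rw [abs_lt] at h9
      unfold Bx
      rw [mem_product, mem_Icc, mem_Icc]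
      push_cast
      refine ⟨⟨by omega, by omega⟩, by omega, by omega⟩
    · rw [← Nat.cast_le (α := ℤ), h1]
      exact h4

/-- the rows of the second region -/
theorem CHB_row2 (d : ℕ) (ψ : ℤ × ℤ → ℂ) (hψ : IsRC d ψ) (j i : ℕ) (κ τ : ℝ) (n : ℕ) (hn : 1 ≤ n) :
    ∃ (χ : ℤ → ℂ) (w : ℝ), (∀ m, χ (m + (2 * d : ℕ)) = χ m) ∧ (∀ m, ‖χ m‖ ≤ 1) ∧
      ∀ m : ℤ, |m| < 2 * (n : ℤ) → CHB_g ψ j i κ τ (m, n) = χ m * (nit (κ + τ) |m + w| * nit (τ - κ) |m - w|) ∧ |(m : ℝ)| < w ∧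
        (n : ℝ) ≤ 10 * (w - |(m : ℝ)|) ∧ 10 * (w + |(m : ℝ)|) ≤ 49 * n ∧ yy (m, n) = Real.log ((w + m) / (w - m)) := by
  obtain ⟨hs1, hs2⟩ := CHB_s8
  have hn0 : (1 : ℝ) ≤ n := by exact_mod_cast hn
  refine ⟨fun m => if m % 2 = 1 then ψ (m, n) * (-1) ^ (j * n) * (-1) ^ i else 0, n * √8, ?_, ?_, ?_⟩
  · intro m
    have h1 : (m + (2 * d : ℕ)) % 2 = m % 2 := by
      push_cast
      omega
    have h2 : ψ (m + (2 * d : ℕ), n) = ψ (m, n) := by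
      refine hψ.2.1 _ _ ?_ ?_
      · refine ⟨2, ?_⟩
        push_cast
        ring
      · simp
    simp only [h1, h2]
  · intro m
    simp only
    split_ifs
    · rw [norm_mul, norm_mul, norm_pow, norm_pow, norm_neg, norm_one, one_pow, one_pow, mul_one, mul_one]
      exact CHB_psi d ψ hψ _
    · rw [norm_zero]
      exact zero_le_one
  · intro m hm
    have hm' : |(m : ℝ)| < 2 * n := by exact_mod_cast hm
    have hw1 : 2.82 * (n : ℝ) < n * √8 := by nlinarith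
    have hw2 : n * √8 < 2.83 * (n : ℝ) := by nlinarith
    have hm1 := neg_abs_le (m : ℝ)
    have hm2 := le_abs_self (m : ℝ)
    have hp1 : 0 < n * √8 + m := by linarith
    have hp2 : 0 < n * √8 - m := by linarith
    refine ⟨?_, by linarith, by linarith, by linarith, ?_⟩
    · unfold CHB_g
      simp only
      split_ifs
      · obtain ⟨-, h2, -⟩ := CHB_nn2 (m, (n : ℤ)) hm
        have h3 := CHB_fac κ τ (m, (n : ℤ)) (by simp only [Int.cast_natCast]; linarith) (by simp only [Int.cast_natCast]; linarith)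
        unfold HC
        rw [mul_assoc _ (Complex.exp _), h3, Int.sign_eq_neg_one_of_neg h2]
        simp only [Int.cast_natCast, Int.natAbs_natCast, Int.cast_neg, Int.cast_one]
      · rw [zero_mul]
    · unfold yy
      simp only [Int.cast_natCast]
      have e1 : |(m : ℝ) + n * √8| = n * √8 + m := by
        rw [abs_of_pos (by linarith)]
        ring
      have e2 : |(m : ℝ) - n * √8| = n * √8 - m := by
        rw [abs_of_neg (by linarith)]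
        ring
      rw [e1, e2]

/-- the rows of the first region -/
theorem CHB_row1 (d : ℕ) (ψ : ℤ × ℤ → ℂ) (hψ : IsRC d ψ) (j i : ℕ) (κ τ : ℝ) (n : ℕ) (hn : 1 ≤ n) :
    ∃ (χ : ℤ → ℂ) (w : ℝ), (∀ m, χ (m + (2 * d : ℕ)) = χ m) ∧ (∀ m, ‖χ m‖ ≤ 1) ∧
      ∀ m : ℤ, 4 * |m| < (n : ℤ) → CHB_g ψ j i κ τ (n, m) = χ m * (nit (κ + τ) |m + w| * nit (τ - κ) |m - w|) ∧ |(m : ℝ)| < w ∧
        (n : ℝ) ≤ 10 * (w - |(m : ℝ)|) ∧ 10 * (w + |(m : ℝ)|) ≤ 49 * n ∧ yy (n, m) = Real.log ((w + m) / (w - m)) := by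
  obtain ⟨hs1, hs2⟩ := CHB_s8
  have hs0 : 0 < √(8 : ℝ) := by linarith
  have hn0 : (1 : ℝ) ≤ n := by exact_mod_cast hn
  have hper : ∀ m : ℤ, ((-1 : ℂ)) ^ (j * (m + (2 * d : ℕ)).natAbs) = (-1) ^ (j * m.natAbs) := by
    intro m
    rw [pow_mul', pow_mul']
    have h1 : (m + (2 * d : ℕ)).natAbs % 2 = m.natAbs % 2 := by
      push_cast
      omega
    rw [neg_one_pow_eq_pow_mod_two, h1, ← neg_one_pow_eq_pow_mod_two]
  refine ⟨fun m => if (n : ℤ) % 2 = 1 then ψ (n, m) * (-1) ^ (j * m.natAbs) * (nit (κ + τ) √8 * nit (τ - κ) √8) else 0, n / √8, ?_, ?_, ?_⟩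
  · intro m
    have h2 : ψ (n, m + (2 * d : ℕ)) = ψ (n, m) := by
      refine hψ.2.1 _ _ ?_ ?_
      · simp
      · refine ⟨2, ?_⟩
        push_cast
        ring
    simp only [hper, h2]
  · intro m
    simp only
    split_ifs
    · rw [norm_mul, norm_mul, norm_mul, norm_pow, norm_neg, norm_one, one_pow, mul_one, CHB_norm_nit, CHB_norm_nit, mul_one, mul_one]
      exact CHB_psi d ψ hψ _
    · rw [norm_zero]
      exact zero_le_one
  · intro m hm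
    have hm' : 4 * |(m : ℝ)| < n := by exact_mod_cast hm
    obtain ⟨w, hw⟩ : ∃ w : ℝ, w = n / √8 := ⟨_, rfl⟩
    have hwn : (n : ℝ) = √8 * w := by
      rw [hw]
      field_simp
    have hw0 : 0 < w := by
      rw [hw]
      positivity
    have hw1 : (n : ℝ) ≤ 2.83 * w := by
      rw [hwn]
      nlinarith
    have hw2 : 2.82 * w ≤ n := by
      rw [hwn]
      nlinarith
    have hm1 := neg_abs_le (m : ℝ)
    have hm2 := le_abs_self (m : ℝ)
    have hp1 : 0 < w + m := by linarith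
    have hp2 : 0 < w - m := by linarith
    rw [← hw]
    have e1 : |(n : ℝ) + m * √8| = √8 * (w + m) := by
      have : (n : ℝ) + m * √8 = √8 * (w + m) := by
        rw [hwn]
        ring
      rw [this, abs_of_pos (by positivity)]
    have e2 : |(n : ℝ) - m * √8| = √8 * (w - m) := by
      have : (n : ℝ) - m * √8 = √8 * (w - m) := by
        rw [hwn]
        ring
      rw [this, abs_of_pos (by positivity)]
    have e3 : |(m : ℝ) + w| = w + m := by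
      rw [abs_of_pos (by linarith)]
      ring
    have e4 : |(m : ℝ) - w| = w - m := by
      rw [abs_of_neg (by linarith)]
      ring
    refine ⟨?_, by linarith, by linarith, by linarith, ?_⟩
    · unfold CHB_g
      simp only
      split_ifs
      · obtain ⟨-, h2, -⟩ := CHB_nn1 ((n : ℤ), m) hm
        have h3 := CHB_fac κ τ ((n : ℤ), m) (by
          simp only [Int.cast_natCast]
          rw [← abs_pos, e1]
          positivity) (by
          simp only [Int.cast_natCast]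
          rw [← abs_pos, e2]
          positivity)
        simp only [Int.cast_natCast] at h3
        unfold HC
        rw [mul_assoc _ (Complex.exp _), h3, Int.sign_eq_one_of_pos h2, e1, e2, e3, e4, CHB_nit_mul _ _ _ hs0 hp1, CHB_nit_mul _ _ _ hs0 hp2]
        simp only [Int.cast_one, one_pow]
        ring
      · rw [zero_mul]
    · unfold yy
      simp only [Int.cast_natCast]
      rw [e1, e2, mul_div_mul_left _ _ hs0.ne']

/-- the parameters -/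
theorem CHB_par (A B K C : ℕ) (C₂ : ℝ) (hC : 0 < C) (hC₂ : 0 < C₂) : ∃ U : ℝ, 144 ≤ U ∧ ∀ u : ℝ, U ≤ u →
    1000 * u ^ (20 * (A + 1 + B)) * Real.exp (u ^ 19 / 3) ≤ Real.exp (u ^ 19 / 2) ∧
    (∀ l : ℕ, 1 ≤ l → (l : ℝ) ≤ 7 * (K + 1) * u → C * (l : ℝ) ^ 3 + 40 * (A + 2) * Real.log u ≤ u ^ 19 / 3 * (1 / (C * (l : ℝ) ^ 6))) ∧
    1120 * (K + 1) * C₂ * u ≤ u ^ 40 ∧
    560 * (K + 1) * C₂ * u * u ^ (20 * A) ≤ Real.exp (u ^ 19 / 2) := by
  obtain ⟨M, hM⟩ : ∃ M : ℕ, M = 20 * (A + 1 + B) := ⟨_, rfl⟩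
  obtain ⟨a, ha⟩ : ∃ a : ℝ, a = 7 * (K + 1) := ⟨_, rfl⟩
  have ha0 : 0 < a := by rw [ha]; positivity
  have hC0 : (0 : ℝ) < C := by exact_mod_cast hC
  obtain ⟨c₁, hc₁⟩ : ∃ c₁ : ℝ, c₁ = 1000 * (6 ^ (M + 1) * ((M + 1).factorial : ℝ)) := ⟨_, rfl⟩
  obtain ⟨c₂, hc₂⟩ : ∃ c₂ : ℝ, c₂ = (C * a ^ 3 + 40 * (A + 2)) * (3 * C * a ^ 6) := ⟨_, rfl⟩
  have hc1 : 0 < c₁ := by rw [hc₁]; positivity
  have hc2 : 0 < c₂ := by rw [hc₂]; positivity
  have hc3 : 0 < 1120 * ((K : ℝ) + 1) * C₂ := by positivity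
  refine ⟨144 + c₁ + c₂ + 1120 * (K + 1) * C₂, by linarith, fun u hu => ?_⟩
  have hu1 : 1 ≤ u := by linarith
  have hu0 : 0 < u := by linarith
  have hp1 : 1000 * u ^ (20 * (A + 1 + B)) * Real.exp (u ^ 19 / 3) ≤ Real.exp (u ^ 19 / 2) := by
    rw [← hM]
    have h1 : Real.exp (u ^ 19 / 2) = Real.exp (u ^ 19 / 6) * Real.exp (u ^ 19 / 3) := by
      rw [← Real.exp_add]
      congr 1
      ring
    rw [h1]
    refine mul_le_mul_of_nonneg_right ?_ (Real.exp_pos _).le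
    have h2 := Real.pow_div_factorial_le_exp (u ^ 19 / 6) (by positivity) (M + 1)
    refine le_trans ?_ h2
    have h3 : u ≤ u ^ 19 := by
      calc u = u ^ 1 := (pow_one u).symm
        _ ≤ u ^ 19 := pow_le_pow_right₀ hu1 (by norm_num)
    have hf : (0 : ℝ) < ((M + 1).factorial : ℝ) := by positivity
    calc 1000 * u ^ M ≤ (u / 6) ^ (M + 1) / ((M + 1).factorial : ℝ) := by
          rw [le_div_iff₀ hf, div_pow, le_div_iff₀ (by positivity)]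
          have h4 : c₁ ≤ u := by linarith
          calc 1000 * u ^ M * ((M + 1).factorial : ℝ) * 6 ^ (M + 1) = u ^ M * c₁ := by rw [hc₁]; ring
            _ ≤ u ^ M * u := by gcongr
            _ = u ^ (M + 1) := (pow_succ u M).symm
      _ ≤ (u ^ 19 / 6) ^ (M + 1) / ((M + 1).factorial : ℝ) := by gcongr
  refine ⟨hp1, ?_, ?_, ?_⟩
  · intro l hl hl2
    have hl0 : (1 : ℝ) ≤ l := by exact_mod_cast hl
    rw [← ha] at hl2
    rw [mul_one_div, le_div_iff₀ (by positivity)]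
    have h1 : Real.log u ≤ u := (Real.log_le_sub_one_of_pos hu0).trans (by linarith)
    have h2 : (l : ℝ) ^ 3 ≤ (a * u) ^ 3 := by gcongr
    have h3 : (l : ℝ) ^ 6 ≤ (a * u) ^ 6 := by gcongr
    have h4 : c₂ ≤ u := by linarith
    have h0 : 0 ≤ Real.log u := Real.log_nonneg hu1
    have h5 : u ≤ u ^ 3 := by
      calc u = u ^ 1 := (pow_one u).symm
        _ ≤ u ^ 3 := pow_le_pow_right₀ hu1 (by norm_num)
    calc (C * (l : ℝ) ^ 3 + 40 * (A + 2) * Real.log u) * (C * (l : ℝ) ^ 6)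
        ≤ (C * (a * u) ^ 3 + 40 * (A + 2) * u ^ 3) * (C * (a * u) ^ 6) := by
          have : Real.log u ≤ u ^ 3 := h1.trans h5
          gcongr
      _ = c₂ * u ^ 9 / 3 := by rw [hc₂]; ring
      _ ≤ u * u ^ 9 / 3 := by gcongr
      _ = u ^ 10 / 3 := by ring
      _ ≤ u ^ 19 / 3 := by
          have : u ^ 10 ≤ u ^ 19 := pow_le_pow_right₀ hu1 (by norm_num)
          linarith
  · have h4 : 1120 * (K + 1) * C₂ ≤ u := by linarith
    calc 1120 * (K + 1) * C₂ * u ≤ u * u := by gcongr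
      _ = u ^ 2 := by ring
      _ ≤ u ^ 40 := pow_le_pow_right₀ hu1 (by norm_num)
  · refine le_trans ?_ hp1
    have h4 : 560 * (K + 1) * C₂ ≤ u := by linarith
    have h5 : (1 : ℝ) ≤ Real.exp (u ^ 19 / 3) := Real.one_le_exp (by positivity)
    calc 560 * (K + 1) * C₂ * u * u ^ (20 * A) ≤ u * u * u ^ (20 * A) := by gcongr
      _ = u ^ (20 * A + 2) := by ring
      _ ≤ u ^ (20 * (A + 1 + B)) := pow_le_pow_right₀ hu1 (by omega)
      _ = 1 * u ^ (20 * (A + 1 + B)) * 1 := by ring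
      _ ≤ 1000 * u ^ (20 * (A + 1 + B)) * Real.exp (u ^ 19 / 3) := by
          gcongr
          norm_num

/-- the choice of `N` -/
theorem CHB_N (A B K C : ℕ) (hC : 0 < C) (x u μ : ℝ) (d v l : ℕ) (hd : 1 ≤ d) (hu : 144 ≤ u) (hx : x = Real.exp (u ^ 20))
    (hdB : (d : ℝ) ≤ u ^ (20 * B)) (hv : Real.exp (u ^ 19) ≤ v)
    (h1 : 1000 * u ^ (20 * (A + 1 + B)) * Real.exp (u ^ 19 / 3) ≤ Real.exp (u ^ 19 / 2))
    (h2 : C * (l : ℝ) ^ 3 + 40 * (A + 2) * Real.log u ≤ u ^ 19 / 3 * (1 / (C * (l : ℝ) ^ 6)))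
    (hl1 : 1 ≤ l) (hl2 : 6 * (K + 1) * u ≤ l) (hμ : μ ≤ 2 * x ^ K) (hvμ : (v : ℝ) ^ (1 / 4 : ℝ) ≤ μ)
    (n : ℕ) (hn : √(v : ℝ) / u ^ (20 * (A + 1)) < n) (hn2 : (n : ℝ) ^ 2 ≤ 2 * v) :
    ∃ N : ℕ, 1 ≤ N ∧ √(N : ℝ) ≤ μ ∧ μ ≤ (N : ℝ) ^ l ∧
      10 * (((2 * d : ℕ) : ℝ) * N) ≤ n ∧ 49 * (n : ℝ) ≤ 500 * (((2 * d : ℕ) : ℝ) * N) ∧
      ((2 * d : ℕ) : ℝ) * N * (Real.exp (C * (l : ℝ) ^ 3) * (N : ℝ) ^ (-(1 / (C * (l : ℝ) ^ 6))) / (1 / u ^ (20 * (A + 2)))) ≤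
        n * (1 / u ^ (20 * (A + 2))) := by
  have hu0 : 0 < u := by linarith
  have hd0 : (1 : ℝ) ≤ d := by exact_mod_cast hd
  have hl0 : (1 : ℝ) ≤ l := by exact_mod_cast hl1
  have hC0 : (0 : ℝ) < C := by exact_mod_cast hC
  have hv0 : (0 : ℝ) < v := (Real.exp_pos _).trans_le hv
  obtain ⟨E, hE⟩ : ∃ E : ℝ, E = Real.exp (u ^ 19 / 3) := ⟨_, rfl⟩
  have hE1 : 1 ≤ E := by rw [hE]; exact Real.one_le_exp (by positivity)
  have hsv : Real.exp (u ^ 19 / 2) ≤ √(v : ℝ) := by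
    apply Real.le_sqrt_of_sq_le
    rw [← Real.exp_nat_mul]
    refine le_trans (le_of_eq ?_) hv
    congr 1
    push_cast
    ring
  have hnd : 1000 * d * E ≤ n := by
    refine le_trans ?_ hn.le
    rw [le_div_iff₀ (by positivity)]
    calc 1000 * d * E * u ^ (20 * (A + 1)) ≤ 1000 * u ^ (20 * B) * E * u ^ (20 * (A + 1)) := by gcongr
      _ = 1000 * u ^ (20 * (A + 1 + B)) * Real.exp (u ^ 19 / 3) := by rw [hE]; ring
      _ ≤ √(v : ℝ) := h1.trans hsv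
  have hnd1 : 1000 * (d : ℝ) ≤ n := by
    refine le_trans ?_ hnd
    nlinarith
  obtain ⟨N, hN⟩ : ∃ N : ℕ, N = n / (20 * d) := ⟨_, rfl⟩
  have hN1 : 20 * d * N ≤ n := by
    rw [hN]
    exact Nat.mul_div_le n (20 * d)
  have hN2 : n < 20 * d * (N + 1) := by
    rw [hN]
    exact Nat.lt_mul_div_succ n (by omega)
  have hN1' : 20 * (d : ℝ) * N ≤ n := by exact_mod_cast hN1
  have hN2' : (n : ℝ) < 20 * d * (N + 1) := by exact_mod_cast hN2
  have hNE : E ≤ N := by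
    have h3 : 1000 * d * E < 20 * d * (N + 1) := hnd.trans_lt hN2'
    have h4 : 50 * E < N + 1 := by
      by_contra h
      push Not at h
      nlinarith
    linarith
  have hN0 : (1 : ℝ) ≤ N := hE1.trans hNE
  have hlogN : u ^ 19 / 3 ≤ Real.log N := by
    rw [Real.le_log_iff_exp_le (by linarith), ← hE]
    exact hNE
  refine ⟨N, by exact_mod_cast hN0, ?_, ?_, ?_, ?_, ?_⟩
  · refine le_trans ?_ hvμ
    have h3 : (N : ℝ) ≤ √(v : ℝ) := by
      apply Real.le_sqrt_of_sq_le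
      have h4 : 20 * (N : ℝ) ≤ n := by nlinarith
      nlinarith
    calc √(N : ℝ) ≤ √(√(v : ℝ)) := Real.sqrt_le_sqrt h3
      _ = (v : ℝ) ^ (1 / 4 : ℝ) := by
          rw [Real.sqrt_eq_rpow, Real.sqrt_eq_rpow, ← Real.rpow_mul hv0.le]
          norm_num
  · refine hμ.trans ?_
    have h3 : (2 : ℝ) ≤ x := by
      rw [hx]
      have h5 : (1 : ℝ) ≤ u ^ 20 := one_le_pow₀ (by linarith)
      have h6 := Real.add_one_le_exp (u ^ 20)
      linarith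
    have hx0 : (1 : ℝ) ≤ x := by linarith
    calc 2 * x ^ K ≤ x * x ^ K := by gcongr
      _ = x ^ (K + 1) := (pow_succ' x K).symm
      _ = Real.exp ((K + 1) * u ^ 20) := by
          rw [hx, ← Real.exp_nat_mul]
          push_cast
          rfl
      _ ≤ Real.exp (l * (u ^ 19 / 3)) := by
          apply Real.exp_le_exp.2
          have h5 : 6 * (K + 1) * u * (u ^ 19 / 3) ≤ l * (u ^ 19 / 3) := by gcongr
          have h6 : (0 : ℝ) ≤ (K + 1) * u ^ 20 := by positivity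
          have h7 : 6 * ((K : ℝ) + 1) * u * (u ^ 19 / 3) = 2 * ((K + 1) * u ^ 20) := by ring
          linarith
      _ = E ^ l := by rw [hE, ← Real.exp_nat_mul]
      _ ≤ (N : ℝ) ^ l := by gcongr
  · push_cast
    linarith
  · push_cast
    nlinarith
  · push_cast
    have h3 : 2 * (d : ℝ) * N ≤ n := by
      have : 0 ≤ (d : ℝ) * N := by positivity
      linarith
    have h4 : Real.exp (C * (l : ℝ) ^ 3) * (N : ℝ) ^ (-(1 / (C * (l : ℝ) ^ 6))) / (1 / u ^ (20 * (A + 2))) ≤ 1 / u ^ (20 * (A + 2)) := by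
      rw [div_le_iff₀ (by positivity), Real.rpow_def_of_pos (by linarith), ← Real.exp_add]
      have h5 : (1 : ℝ) / u ^ (20 * (A + 2)) * (1 / u ^ (20 * (A + 2))) = Real.exp (-(40 * (A + 2) * Real.log u)) := by
        have h7 : u ^ (20 * (A + 2)) = Real.exp (20 * (A + 2) * Real.log u) := by
          have e : 20 * ((A : ℝ) + 2) * Real.log u = ((20 * (A + 2) : ℕ) : ℝ) * Real.log u := by
            push_cast
            ring
          rw [e, Real.exp_nat_mul, Real.exp_log hu0]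
        rw [h7, one_div, ← Real.exp_neg, ← Real.exp_add]
        congr 1
        ring
      rw [h5]
      apply Real.exp_le_exp.2
      have h6 : u ^ 19 / 3 * (1 / (C * (l : ℝ) ^ 6)) ≤ Real.log N * (1 / (C * (l : ℝ) ^ 6)) :=
        mul_le_mul_of_nonneg_right hlogN (by positivity)
      linarith
    calc 2 * (d : ℝ) * N * (Real.exp (C * (l : ℝ) ^ 3) * (N : ℝ) ^ (-(1 / (C * (l : ℝ) ^ 6))) / (1 / u ^ (20 * (A + 2))))
        ≤ n * (1 / u ^ (20 * (A + 2))) := by gcongr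

theorem CHB (hRWB : RWB_stmt) (hSCW : SCW_stmt) : CHB_stmt := by
  classical
  obtain ⟨C, hC0, hR⟩ := hRWB
  have hR' : CHB_RW C := hR
  obtain ⟨C₂, hC₂, hS⟩ := hSCW
  intro A B K
  obtain ⟨U, hU, hpar⟩ := CHB_par A B K C C₂ hC0 hC₂
  refine ⟨Real.exp (U ^ 20), fun x hx d hd hdB ψ hψ j i hj hi κ τ hκ hτ v hv hv4 => ?_⟩
  have hx0 : 0 < x := (Real.exp_pos _).trans_le hx
  have hU0 : 0 < U := by linarith
  have hL : U ^ 20 ≤ Real.log x := (Real.le_log_iff_exp_le hx0).2 hx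
  have hL0 : 0 < Real.log x := lt_of_lt_of_le (by positivity) hL
  obtain ⟨u, hu⟩ : ∃ u : ℝ, u = Real.log x ^ (1 / 20 : ℝ) := ⟨_, rfl⟩
  have hu0 : 0 < u := by rw [hu]; positivity
  have huL : u ^ 20 = Real.log x := by
    rw [hu, ← Real.rpow_natCast, ← Real.rpow_mul hL0.le]
    norm_num
  have huU : U ≤ u := by
    by_contra h
    push Not at h
    have := pow_lt_pow_left₀ h hu0.le (n := 20) (by norm_num)
    linarith
  have hu144 : 144 ≤ u := hU.trans huU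
  have hdl : CH.dl x = u ^ 19 := by
    unfold CH.dl
    rw [hu, ← Real.rpow_natCast (_ ^ _), ← Real.rpow_mul hL0.le]
    norm_num
  rw [hdl] at hv
  have hxe : x = Real.exp (u ^ 20) := by rw [huL, Real.exp_log hx0]
  have hdB' : (d : ℝ) ≤ u ^ (20 * B) := by
    rw [pow_mul, huL]
    exact hdB
  rw [← huL]
  obtain ⟨p1, p2, p3, p4⟩ := hpar u huU
  have hK0 : (0 : ℝ) ≤ K := Nat.cast_nonneg _
  obtain ⟨l, hl⟩ : ∃ l : ℕ, l = ⌈6 * ((K : ℝ) + 1) * u⌉₊ := ⟨_, rfl⟩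
  have hl2 : 6 * ((K : ℝ) + 1) * u ≤ l := by rw [hl]; exact Nat.le_ceil _
  have hl3 : (l : ℝ) ≤ 7 * (K + 1) * u := by
    have h1 : (l : ℝ) < 6 * ((K : ℝ) + 1) * u + 1 := by rw [hl]; exact Nat.ceil_lt_add_one (by positivity)
    nlinarith
  have hl1 : 1 ≤ l := by
    have h1 : (0 : ℝ) < l := lt_of_lt_of_le (by positivity) hl2
    have h2 : 0 < l := by exact_mod_cast h1
    exact h2
  have hd1 : 1 ≤ d := hd.pos
  have hv0 : (0 : ℝ) < v := (Real.exp_pos _).trans_le hv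
  have hv1 : 1 ≤ v := by
    have h2 : 0 < v := by exact_mod_cast hv0
    exact h2
  have hμ : max |κ + τ| |τ - κ| ≤ 2 * x ^ K := by
    apply max_le
    · have := abs_add_le κ τ
      linarith
    · have := abs_sub τ κ
      linarith
  obtain ⟨η, hη⟩ : ∃ η : ℝ, η = 1 / u ^ (20 * (A + 2)) := ⟨_, rfl⟩
  have hη0 : 0 < η := by rw [hη]; positivity
  have hη2 : η ≤ 1 / 2 := by
    rw [hη]
    apply one_div_le_one_div_of_le (by norm_num)
    calc (2 : ℝ) ≤ u := by linarith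
      _ = u ^ 1 := (pow_one u).symm
      _ ≤ u ^ (20 * (A + 2)) := pow_le_pow_right₀ (by linarith) (by omega)
  obtain ⟨n₀, hn₀⟩ : ∃ n₀ : ℝ, n₀ = √(v : ℝ) / u ^ (20 * (A + 1)) := ⟨_, rfl⟩
  have hn₀0 : 0 ≤ n₀ := by rw [hn₀]; positivity
  have hN : ∀ n : ℕ, n₀ < n → (n : ℝ) ^ 2 ≤ 2 * v → ∃ N : ℕ, 1 ≤ N ∧ √(N : ℝ) ≤ max |κ + τ| |τ - κ| ∧ max |κ + τ| |τ - κ| ≤ (N : ℝ) ^ l ∧
      10 * (((2 * d : ℕ) : ℝ) * N) ≤ n ∧ 49 * (n : ℝ) ≤ 500 * (((2 * d : ℕ) : ℝ) * N) ∧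
      ((2 * d : ℕ) : ℝ) * N * (Real.exp (C * (l : ℝ) ^ 3) * (N : ℝ) ^ (-(1 / (C * (l : ℝ) ^ 6))) / η) ≤ n * η := by
    intro n h1 h2
    rw [hη]
    rw [hn₀] at h1
    exact CHB_N A B K C hC0 x u _ d v l hd1 hu144 hxe hdB' hv p1 (p2 l hl1 hl3) hl1 hl2 hμ hv4 n h1 h2
  obtain ⟨bad, hbad⟩ : ∃ bad : Finset (ℤ × ℤ), bad = (Icc 1 (5 * l)).biUnion fun jj : ℕ =>
      (FE v).filter fun z => |yy z - Real.log (|κ + τ| / |τ - κ|) / jj| ≤ 2 * η := ⟨_, rfl⟩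
  have hbc : (bad.card : ℝ) ≤ 5 * l * (C₂ * (2 * η * v + √(v : ℝ))) := by
    have h1 : bad.card ≤ ∑ jj ∈ Icc 1 (5 * l), #((FE v).filter fun z => |yy z - Real.log (|κ + τ| / |τ - κ|) / jj| ≤ 2 * η) := by
      rw [hbad]
      exact card_biUnion_le
    have h2 : (bad.card : ℝ) ≤ ∑ jj ∈ Icc 1 (5 * l), (#((FE v).filter fun z => |yy z - Real.log (|κ + τ| / |τ - κ|) / jj| ≤ 2 * η) : ℝ) := by
      exact_mod_cast h1
    refine h2.trans ?_
    refine le_trans (sum_le_sum (g := fun _ => C₂ * (2 * η * v + √(v : ℝ))) fun jj _ => ?_) ?_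
    · refine le_trans ?_ (hS v (Real.log (|κ + τ| / |τ - κ|) / jj) (2 * η) hv1 (by positivity))
      exact le_rfl
    · rw [sum_const, nsmul_eq_mul, Nat.card_Icc, Nat.add_sub_cancel]
      push_cast
      exact le_rfl
  have hbm : ∀ z ∈ FE v, ∀ jj ∈ Icc 1 (5 * l), |yy z - Real.log (|κ + τ| / |τ - κ|) / jj| ≤ 2 * η → z ∈ bad := by
    intro z hz jj hj h
    rw [hbad, mem_biUnion]
    exact ⟨jj, hj, mem_filter.2 ⟨hz, h⟩⟩
  obtain ⟨g, hg⟩ : ∃ g : ℤ × ℤ → ℂ, g = CHB_g ψ j i κ τ := ⟨_, rfl⟩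
  have hgn : ∀ z, ‖g z‖ ≤ 1 := by
    intro z
    rw [hg]
    exact CHB_g_norm d ψ hψ j i κ τ z
  have hreg2 : ∀ S : Finset (ℤ × ℤ), (∀ z ∈ S, |z.1| < 2 * z.2 ∧ z ∈ FE v) → (∀ n a b m : ℤ, (a, n) ∈ S → (b, n) ∈ S → a ≤ m → m ≤ b → (m, n) ∈ S) →
      ‖∑ z ∈ S, g z‖ ≤ 7 * n₀ ^ 2 + 2 * v * η + bad.card := by
    intro S hS1 hS2
    refine CHB_cls C hR' v d l (κ + τ) (τ - κ) η η n₀ hl1 hd1 hη0 hη2 hη0.le hn₀0 hN S g Prod.snd Prod.fst (fun n m => (m, n))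
      (fun _ => rfl) (fun _ _ => rfl) (fun _ _ => rfl) (fun z _ => hgn z) ?_ hS2 ?_ bad (fun z hz => hbm z (hS1 z hz).2)
    · intro z hz
      obtain ⟨h1, h2⟩ := hS1 z hz
      have h3 := (CHB_mem2 v z h1).1 h2
      have h4 := (CHB_nn2 z h1).2.2
      have h5 := abs_nonneg z.1
      refine ⟨by omega, ?_⟩
      have h6 : 0 ≤ z.2 ^ 2 := sq_nonneg _
      omega
    · intro n hn
      obtain ⟨χ, w, h1, h2, h3⟩ := CHB_row2 d ψ hψ j i κ τ n hn
      refine ⟨χ, w, h1, h2, fun m hm => ?_⟩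
      rw [hg]
      exact h3 m (hS1 _ hm).1
  have hreg1 : ∀ S : Finset (ℤ × ℤ), (∀ z ∈ S, 4 * |z.2| < z.1 ∧ z ∈ FE v) → (∀ n a b m : ℤ, (n, a) ∈ S → (n, b) ∈ S → a ≤ m → m ≤ b → (n, m) ∈ S) →
      ‖∑ z ∈ S, g z‖ ≤ 7 * n₀ ^ 2 + 2 * v * η + bad.card := by
    intro S hS1 hS2
    refine CHB_cls C hR' v d l (κ + τ) (τ - κ) η η n₀ hl1 hd1 hη0 hη2 hη0.le hn₀0 hN S g Prod.fst Prod.snd (fun n m => (n, m))
      (fun _ => rfl) (fun _ _ => rfl) (fun _ _ => rfl) (fun z _ => hgn z) ?_ hS2 ?_ bad (fun z hz => hbm z (hS1 z hz).2)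
    · intro z hz
      obtain ⟨h1, h2⟩ := hS1 z hz
      have h3 := (CHB_mem1 v z h1).1 h2
      have h4 := (CHB_nn1 z h1).2.2
      have h5 := abs_nonneg z.2
      refine ⟨by omega, ?_⟩
      omega
    · intro n hn
      obtain ⟨χ, w, h1, h2, h3⟩ := CHB_row1 d ψ hψ j i κ τ n hn
      refine ⟨χ, w, h1, h2, fun m hm => ?_⟩
      rw [hg]
      exact h3 m (hS1 _ hm).1
  have hFF : FF v = (FE v).filter fun z => z.1 % 2 = 1 := by
    ext z
    unfold FF FE Bx Fd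
    simp only [mem_filter, mem_product, mem_Icc]
    push_cast
    tauto
  have hsum : ∑ z ∈ FF v, HC ψ j i κ z * nit τ (nn z) = ∑ z ∈ FE v, g z := by
    rw [hFF, sum_filter, hg]
    rfl
  rw [hsum]
  rw [← sum_filter_add_sum_filter_not (FE v) (fun z => |z.1| < 2 * z.2) g,
    ← sum_filter_add_sum_filter_not ((FE v).filter fun z => |z.1| < 2 * z.2) (fun z => 0 ≤ z.1) g,
    ← sum_filter_add_sum_filter_not ((FE v).filter fun z => ¬ |z.1| < 2 * z.2) (fun z => 0 ≤ z.2) g]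
  have hm1 : ∀ z ∈ FE v, ¬ |z.1| < 2 * z.2 → 4 * |z.2| < z.1 := by
    intro z hz h
    unfold FE at hz
    rcases (mem_filter.1 hz).2.1 with h1 | h1
    · exact h1
    · exact absurd h1 h
  have hA1 : ‖∑ z ∈ ((FE v).filter fun z => |z.1| < 2 * z.2).filter (fun z => 0 ≤ z.1), g z‖ ≤ 7 * n₀ ^ 2 + 2 * v * η + bad.card := by
    apply hreg2
    · intro z hz
      rw [mem_filter, mem_filter] at hz
      exact ⟨hz.1.2, hz.1.1⟩
    · intro n a b m ha hb h1 h2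
      rw [mem_filter, mem_filter] at ha hb ⊢
      obtain ⟨⟨ha1, ha2⟩, ha3⟩ := ha
      obtain ⟨⟨hb1, hb2⟩, hb3⟩ := hb
      simp only at ha2 ha3 hb2 hb3 ⊢
      have h3 : |m| < 2 * n := by
        rw [abs_lt] at hb2 ⊢
        omega
      refine ⟨⟨?_, h3⟩, by omega⟩
      rw [CHB_mem2 v _ h3]
      have h4 := (CHB_mem2 v (a, n) ha2).1 ha1
      simp only at h4 ⊢
      nlinarith
  have hA2 : ‖∑ z ∈ ((FE v).filter fun z => |z.1| < 2 * z.2).filter (fun z => ¬ 0 ≤ z.1), g z‖ ≤ 7 * n₀ ^ 2 + 2 * v * η + bad.card := by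
    apply hreg2
    · intro z hz
      rw [mem_filter, mem_filter] at hz
      exact ⟨hz.1.2, hz.1.1⟩
    · intro n a b m ha hb h1 h2
      rw [mem_filter, mem_filter] at ha hb ⊢
      obtain ⟨⟨ha1, ha2⟩, ha3⟩ := ha
      obtain ⟨⟨hb1, hb2⟩, hb3⟩ := hb
      simp only at ha2 ha3 hb2 hb3 ⊢
      have h3 : |m| < 2 * n := by
        rw [abs_lt] at ha2 ⊢
        omega
      refine ⟨⟨?_, h3⟩, by omega⟩
      rw [CHB_mem2 v _ h3]
      have h4 := (CHB_mem2 v (b, n) hb2).1 hb1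
      simp only at h4 ⊢
      nlinarith
  have hA3 : ‖∑ z ∈ ((FE v).filter fun z => ¬ |z.1| < 2 * z.2).filter (fun z => 0 ≤ z.2), g z‖ ≤ 7 * n₀ ^ 2 + 2 * v * η + bad.card := by
    apply hreg1
    · intro z hz
      rw [mem_filter, mem_filter] at hz
      exact ⟨hm1 z hz.1.1 hz.1.2, hz.1.1⟩
    · intro n a b m ha hb h1 h2
      rw [mem_filter, mem_filter] at ha hb ⊢
      obtain ⟨⟨ha1, ha2⟩, ha3⟩ := ha
      obtain ⟨⟨hb1, hb2⟩, hb3⟩ := hb
      have ha4 := hm1 _ ha1 ha2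
      have hb4 := hm1 _ hb1 hb2
      simp only at ha2 ha3 hb2 hb3 ha4 hb4 ⊢
      have h3 : 4 * |m| < n := by
        rw [abs_of_nonneg ha3] at ha4
        rw [abs_of_nonneg hb3] at hb4
        rw [abs_of_nonneg (by omega)]
        omega
      refine ⟨⟨?_, ?_⟩, by omega⟩
      · rw [CHB_mem1 v _ h3]
        have h4 := (CHB_mem1 v (n, a) ha4).1 ha1
        simp only at h4 ⊢
        nlinarith
      · have h5 := neg_abs_le n
        have h6 := le_abs_self n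
        have h7 := abs_nonneg m
        have h8 := le_abs_self m
        omega
  have hA4 : ‖∑ z ∈ ((FE v).filter fun z => ¬ |z.1| < 2 * z.2).filter (fun z => ¬ 0 ≤ z.2), g z‖ ≤ 7 * n₀ ^ 2 + 2 * v * η + bad.card := by
    apply hreg1
    · intro z hz
      rw [mem_filter, mem_filter] at hz
      exact ⟨hm1 z hz.1.1 hz.1.2, hz.1.1⟩
    · intro n a b m ha hb h1 h2
      rw [mem_filter, mem_filter] at ha hb ⊢
      obtain ⟨⟨ha1, ha2⟩, ha3⟩ := ha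
      obtain ⟨⟨hb1, hb2⟩, hb3⟩ := hb
      have ha4 := hm1 _ ha1 ha2
      have hb4 := hm1 _ hb1 hb2
      simp only at ha2 ha3 hb2 hb3 ha4 hb4 ⊢
      have h3 : 4 * |m| < n := by
        rw [abs_of_neg (by omega)] at ha4
        rw [abs_of_neg (by omega)]
        omega
      refine ⟨⟨?_, ?_⟩, by omega⟩
      · rw [CHB_mem1 v _ h3]
        have h4 := (CHB_mem1 v (n, b) hb4).1 hb1
        simp only at h4 ⊢
        nlinarith
      · have h5 := neg_abs_le n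
        have h6 := le_abs_self n
        have h7 := abs_nonneg m
        have h8 := le_abs_self m
        omega
  have hT : 4 * (7 * n₀ ^ 2 + 2 * v * η + bad.card) ≤ v / (u ^ 20) ^ A := by
    rw [← pow_mul]
    obtain ⟨Q, hQ⟩ : ∃ Q : ℝ, Q = v / u ^ (20 * A) := ⟨_, rfl⟩
    have hQ0 : 0 < Q := by rw [hQ]; positivity
    rw [← hQ]
    have hvη : v * η = Q / u ^ 40 := by
      rw [hη, hQ, mul_one_div, div_div, ← pow_add]
      congr 2
    have h1 : n₀ ^ 2 ≤ Q / u ^ 40 := by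
      rw [hn₀, hQ, div_pow, Real.sq_sqrt hv0.le, div_div, ← pow_add, ← pow_mul]
      apply div_le_div_of_nonneg_left hv0.le (by positivity)
      exact pow_le_pow_right₀ (by linarith) (by omega)
    have h2 : 144 * (Q / u ^ 40) ≤ Q := by
      have h3 : (144 : ℝ) ≤ u ^ 40 := by
        calc (144 : ℝ) ≤ u := hu144
          _ = u ^ 1 := (pow_one u).symm
          _ ≤ u ^ 40 := pow_le_pow_right₀ (by linarith) (by norm_num)
      rw [mul_div_assoc', div_le_iff₀ (by positivity)]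
      nlinarith
    have h3 : 1120 * (K + 1) * C₂ * u * (Q / u ^ 40) ≤ Q := by
      rw [mul_div_assoc', div_le_iff₀ (by positivity)]
      nlinarith
    have hsv : Real.exp (u ^ 19 / 2) ≤ √(v : ℝ) := by
      apply Real.le_sqrt_of_sq_le
      rw [← Real.exp_nat_mul]
      refine le_trans (le_of_eq ?_) hv
      congr 1
      push_cast
      ring
    have h4 : 560 * (K + 1) * C₂ * u * √(v : ℝ) ≤ Q := by
      rw [hQ, le_div_iff₀ (by positivity)]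
      have h5 : 560 * (K + 1) * C₂ * u * u ^ (20 * A) ≤ √(v : ℝ) := p4.trans hsv
      calc 560 * (K + 1) * C₂ * u * √(v : ℝ) * u ^ (20 * A) = 560 * (K + 1) * C₂ * u * u ^ (20 * A) * √(v : ℝ) := by ring
        _ ≤ √(v : ℝ) * √(v : ℝ) := by gcongr
        _ = v := Real.mul_self_sqrt hv0.le
    have h5 : (bad.card : ℝ) ≤ 5 * (7 * (K + 1) * u) * (C₂ * (2 * (Q / u ^ 40) + √(v : ℝ))) := by
      refine hbc.trans ?_
      have e : 2 * η * v = 2 * (Q / u ^ 40) := by rw [← hvη]; ring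
      rw [e]
      gcongr
    have e2 : 5 * (7 * ((K : ℝ) + 1) * u) * (C₂ * (2 * (Q / u ^ 40) + √(v : ℝ))) =
        (1120 * (K + 1) * C₂ * u * (Q / u ^ 40)) / 16 + (560 * (K + 1) * C₂ * u * √(v : ℝ)) / 16 := by ring
    rw [e2] at h5
    have e3 : 2 * (v : ℝ) * η = 2 * (Q / u ^ 40) := by rw [← hvη]; ring
    rw [e3]
    linarith
  refine le_trans ?_ hT
  refine le_trans (norm_add_le _ _) ?_
  have h1 := norm_add_le (∑ z ∈ ((FE v).filter fun z => |z.1| < 2 * z.2).filter (fun z => 0 ≤ z.1), g z)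
    (∑ z ∈ ((FE v).filter fun z => |z.1| < 2 * z.2).filter (fun z => ¬ 0 ≤ z.1), g z)
  have h2 := norm_add_le (∑ z ∈ ((FE v).filter fun z => ¬ |z.1| < 2 * z.2).filter (fun z => 0 ≤ z.2), g z)
    (∑ z ∈ ((FE v).filter fun z => ¬ |z.1| < 2 * z.2).filter (fun z => ¬ 0 ≤ z.2), g z)
  linarith

end Pool.Agent.BP
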